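import Mathlib
import Pool.Agent.H.MP_40378c_al.Main

set_option autoImplicit false

namespace Pool.Agent.Results.MP_40378c_al.Invariance

open SimpleGraph

/-- A ray: an injective sequence of vertices with consecutive terms adjacent. -/
def IsRay {V : Type} (G : SimpleGraph V) (R : ℕ → V) : Prop :=
  Function.Injective R ∧ ∀ n, G.Adj (R n) (R (n + 1))

/-- Two rays belong to the same end: no finite vertex set separates their tails. -/
def SameEnd {V : Type} (G : SimpleGraph V) (R R' : ℕ → V) : Prop :=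
  ∀ S : Finset V, ∃ N, ∀ i ≥ N, ∀ j ≥ N, ∃ p : G.Walk (R i) (R' j), ∀ v ∈ p.support, v ∉ S

/-- The set and its complement are connected and no end is reached from both. -/
def CConn {V : Type} (G : SimpleGraph V) (F : Set V) : Prop :=
  (G.induce F).Connected ∧ (G.induce Fᶜ).Connected ∧
    ¬ ∃ R R', IsRay G R ∧ IsRay G R' ∧ (∀ n, R n ∈ F) ∧ (∀ n, R' n ∈ Fᶜ) ∧ SameEnd G R R'

/-- Connected boundaries. -/
def HasCB {V : Type} (G : SimpleGraph V) : Prop :=
  ∃ r : ℕ, ∀ F, CConn G F → (G.induce ({x | ∃ y ∈ F, G.dist x y ≤ r + 1} \ F)).Connected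

/-- Connected boundaries is invariant under change of generators, bi-Lipschitz equivalence and
quasi-isometry of Cayley graphs. -/
theorem result :
    (∀ (G : Type) [Group G] (S T : Finset G), Subgroup.closure (S : Set G) = ⊤ →
      Subgroup.closure (T : Set G) = ⊤ →
      (HasCB (mulCayley (S : Set G)) ↔ HasCB (mulCayley (T : Set G)))) ∧
    (∀ (G H : Type) [Group G] [Group H] (S : Finset G) (T : Finset H),
      Subgroup.closure (S : Set G) = ⊤ → Subgroup.closure (T : Set H) = ⊤ →
      ∀ (f : G ≃ H) (K : ℝ), 1 ≤ K →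
      (∀ x y, K⁻¹ * (mulCayley (S : Set G)).dist x y ≤ (mulCayley (T : Set H)).dist (f x) (f y) ∧
        ((mulCayley (T : Set H)).dist (f x) (f y) : ℝ) ≤ K * (mulCayley (S : Set G)).dist x y) →
      (HasCB (mulCayley (S : Set G)) ↔ HasCB (mulCayley (T : Set H)))) ∧
    (∀ (G H : Type) [Group G] [Group H] (S : Finset G) (T : Finset H),
      Subgroup.closure (S : Set G) = ⊤ → Subgroup.closure (T : Set H) = ⊤ →
      ∀ (f : G → H) (K C : ℝ), 1 ≤ K → 0 ≤ C →
      (∀ x y, K⁻¹ * (mulCayley (S : Set G)).dist x y - C ≤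
          (mulCayley (T : Set H)).dist (f x) (f y) ∧
        ((mulCayley (T : Set H)).dist (f x) (f y) : ℝ) ≤ K * (mulCayley (S : Set G)).dist x y + C) →
      (∀ y, ∃ x, ((mulCayley (T : Set H)).dist y (f x) : ℝ) ≤ C) →
      (HasCB (mulCayley (S : Set G)) ↔ HasCB (mulCayley (T : Set H)))) := by
  open Pool.Agent.H.MP_40378c_al in
  refine ⟨fun G _ S T hS hT => ⟨cay_gen S T hS hT, cay_gen T S hT hS⟩,
    fun G H _ _ S T hS hT f K hK h => qi (cay_conn hS) (cay_conn hT) (cay_lf S) (cay_lf T) f K 0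
      hK le_rfl (fun x y => by simpa using (h x y).1) (fun x y => by simpa using (h x y).2)
      fun y => ⟨f.symm y, by simp⟩,
    fun G H _ _ S T hS hT f K C hK hC h h' => qi (cay_conn hS) (cay_conn hT) (cay_lf S) (cay_lf T)
      f K C hK hC (fun x y => (h x y).1) (fun x y => (h x y).2) h'⟩

end Pool.Agent.Results.MP_40378c_al.Invariance
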